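import Pool.Agent.Lib.MP_6ff0c5_lc.Main

/-!
MP_6ff0c5_lc: compatible triangulation of polygons with holes with Steiner points is hard for the existential theory of the
reals.
-/

set_option autoImplicit false

namespace Pool.Agent.Results.MP_6ff0c5_lc.CompatTriangHard

open Pool.Agent.Lib.MP_6ff0c5_lc

/-- **Compatible triangulation with Steiner points is `∃ℝ`-hard**: the existential theory of the reals reduces to it by a
function that is computable in polynomial time. -/
theorem result : ExistsRHard CT := compatTriang_hard

end Pool.Agent.Results.MP_6ff0c5_lc.CompatTriangHard
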